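import Pool.Agent.BCP8.Final

/-!
# Budgeted colouring is fixed-parameter tractable for the cluster vertex deletion number

`CvdLe G k`: the cluster vertex deletion number of `G` is at most `k`. `Budgeted G B`: `G` has a proper
colouring with the colours `0, …, c - 1`, `c` the length of `B`, which uses colour `i` at most `B i` times.
`FPT A`: some program decides `A k x` in at most `f k * (size x + 1) ^ c` steps, `f` computable.
-/

set_option autoImplicit false

namespace Pool.Agent.Results.MP_572c27_lc.FixedParameterTractable

open Pool.Agent.Lib.CX Pool.Agent.BCP8

/-- The Budgeted Coloring Problem is fixed-parameter tractable with respect to the cluster vertex deletion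
number alone: with parameter `k` it is decidable in `f k * (size x + 1) ^ c` steps whether the graph `x.1.G`
has cluster vertex deletion number at most `k` and a proper colouring with budgets `x.2`. -/
theorem result : FPT fun (k : ℕ) (x : Gr × List ℕ) => CvdLe x.1.G k ∧ Budgeted x.1.G x.2 :=
  t_FINAL

end Pool.Agent.Results.MP_572c27_lc.FixedParameterTractable
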